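import Pool.Agent.W262.TW.Stm

/-! TW-ABS: from the core estimate to the number of tuples with prescribed signs. -/

set_option autoImplicit false

namespace Pool.Agent.W249.TW

open Finset Pool.Agent.W262.RK Pool.Agent.W262.TW

lemma log3 {Y : ℕ} (hY : 3 ≤ Y) : 1 < Real.log 3 ∧ Real.log 3 ≤ Real.log Y := by
  constructor
  · rw [Real.lt_log_iff_exp_lt (by norm_num)]
    have := Real.exp_one_lt_d9
    linarith
  · exact Real.log_le_log (by norm_num) (by exact_mod_cast hY)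

lemma bb_le {K : Type} [Fintype K] [DecidableEq K] (Θ : K → ℕ → Finset (Finset K))
    (h : ∀ i p, Θ i p ⊆ (univ.erase i).powerset) (a : K × Finset K) (p : ℕ) :
    |bb Θ a p| ≤ 1 := by
  unfold bb
  split_ifs with h1
  · simp
  · rw [abs_div, abs_of_pos (show (0:ℝ) < 2 ^ (Fintype.card K - 1) by positivity),
      div_le_one (by positivity)]
    have h2 := Finset.card_le_card (h a.1 p)
    rw [Finset.card_powerset, Finset.card_erase_of_mem (Finset.mem_univ _), Finset.card_univ] at h2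
    calc |∑ N ∈ Θ a.1 p, (-1 : ℝ) ^ (a.2 ∩ N).card| ≤ ∑ N ∈ Θ a.1 p, |(-1 : ℝ) ^ (a.2 ∩ N).card| :=
          Finset.abs_sum_le_sum_abs _ _
      _ = (Θ a.1 p).card := by simp
      _ ≤ 2 ^ (Fintype.card K - 1) := by exact_mod_cast h2

lemma LK_ne {K : Type} [Fintype K] [DecidableEq K] (a b : K × Finset K) (h : LK a b = true) :
    a.1 ≠ b.1 := by
  unfold LK at h
  exact (of_decide_eq_true h).2

theorem abs0 (h1 : CORE) (h2 : EXPA) (h3 : COMB0) : ABS0 := by
  intro K _ _ ε hε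
  obtain ⟨B, hB⟩ := h1 (K × Finset K) K Prod.fst LK LK_ne ε hε
  obtain ⟨m, hm⟩ := pow_unbounded_of_one_lt 4 (log3 (le_refl 3)).1
  obtain ⟨C, hC⟩ := hB (B + m)
  refine ⟨C, fun z Y κ Θ w hz hY hw hκ hΘ hs => ?_⟩
  obtain ⟨hl1, hl2⟩ := log3 hY
  have hlog : 1 < Real.log Y := lt_of_lt_of_le hl1 hl2
  have hpB : 1 ≤ (Real.log Y) ^ B := one_le_pow₀ hlog.le
  have hM : 1 ≤ Real.exp w := Real.one_le_exp hw
  have hV0 : (⌈(Real.log Y) ^ B⌉₊ : ℝ) < (Real.log Y) ^ B + 1 :=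
    Nat.ceil_lt_add_one (by positivity)
  have hV1 : (Real.log Y) ^ B ≤ (⌈(Real.log Y) ^ B⌉₊ : ℝ) := Nat.le_ceil _
  have h5 := hC z Y 0 (⌈(Real.log Y) ^ B⌉₊ + 2) (κK κ) (bb Θ) (Real.exp w) hz hY (by omega)
    (by push_cast; linarith) (by
      push_cast
      rw [pow_add]
      have h6 : (4 : ℝ) ≤ (Real.log Y) ^ m :=
        hm.le.trans (pow_le_pow_left₀ (by linarith) hl2 m)
      nlinarith) (Or.inl rfl) (bb_le Θ hΘ) hM (by
      intro A hA _
      exact Real.exp_le_exp.2 (h3 K z Y Θ w hw hΘ hs A hA))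
  rw [h2 K z Y 0 κ Θ hz hκ hΘ]
  exact (le_abs_self _).trans h5

lemma lower {Y : ℕ} (hY : 3 ≤ Y) {ε : ℝ} (hε : 0 < ε) :
    1 ≤ (Y : ℝ) * (Real.log Y) ^ (ε - 1) := by
  obtain ⟨hl1, hl2⟩ := log3 hY
  have hlog : 1 < Real.log Y := lt_of_lt_of_le hl1 hl2
  have hY0 : (0 : ℝ) < Y := by positivity
  have h1 : (Real.log Y) ^ (-1 : ℝ) ≤ (Real.log Y) ^ (ε - 1) :=
    Real.rpow_le_rpow_of_exponent_le hlog.le (by linarith)
  rw [Real.rpow_neg_one] at h1
  have h2 := Real.log_le_sub_one_of_pos hY0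
  have h3 : 1 ≤ (Y : ℝ) * (Real.log Y)⁻¹ := by
    rw [← div_eq_mul_inv, le_div_iff₀ (by linarith)]
    linarith
  exact h3.trans (mul_le_mul_of_nonneg_left h1 hY0.le)

open Classical in
lemma cnt_le {K : Type} [Fintype K] [DecidableEq K] (z Y V : ℕ) (κ : K → ℤ)
    (Θ : K → ℕ → Finset (Finset K)) : (cnt z Y V κ Θ : ℝ) ≤ (Y : ℝ) ^ Fintype.card K := by
  have h1 : cnt z Y V κ Θ ≤ (Fintype.piFinset (fun _ : K => Icc 1 Y)).card :=
    Finset.card_filter_le _ _
  have h2 : (Fintype.piFinset (fun _ : K => Icc 1 Y)).card = Y ^ Fintype.card K := by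
    rw [Fintype.card_piFinset]
    simp
  rw [h2] at h1
  exact_mod_cast h1

theorem abs1 (h1 : CORE) (h2 : EXPA) (h3 : COMB1) : ABS1 := by
  intro K _ _ ε hε
  by_cases hK : IsEmpty K
  · refine ⟨0, fun B' => ⟨1, fun z Y V κ Θ w hz hY _ _ hw _ _ _ => ?_⟩⟩
    have h5 := cnt_le z Y V κ Θ
    rw [Fintype.card_eq_zero, pow_zero] at h5
    have h6 := lower hY hε
    have h7 : 1 ≤ Real.exp w := Real.one_le_exp hw
    rw [one_mul]
    nlinarith
  rw [not_isEmpty_iff] at hK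
  obtain ⟨B0, hB⟩ := h1 (K × Finset K) K Prod.fst LK LK_ne ε hε
  set n := Fintype.card (K × Finset K) with hn
  have hn1 : 1 ≤ n := Fintype.card_pos
  refine ⟨n * (B0 + 1), fun B' => ?_⟩
  obtain ⟨C, hC⟩ := hB B'
  refine ⟨max C (Real.exp 3 ^ Fintype.card K), fun z Y V κ Θ w hz hY hV1 hV2 hw hκ hΘ hs => ?_⟩
  obtain ⟨hl1, hl2⟩ := log3 hY
  have hlog : 1 < Real.log Y := lt_of_lt_of_le hl1 hl2
  have hM : 1 ≤ Real.exp w := Real.one_le_exp hw
  have hlow := lower hY hε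
  have hY0 : (0 : ℝ) < Y := by positivity
  rcases lt_or_ge (Real.log Y) 3 with h3' | h3'
  · -- small `Y`
    have h5 := cnt_le z Y V κ Θ
    have h6 : (Y : ℝ) ≤ Real.exp 3 := by
      rw [← Real.log_le_iff_le_exp hY0]; exact h3'.le
    have h7 : (Y : ℝ) ^ Fintype.card K ≤ Real.exp 3 ^ Fintype.card K :=
      pow_le_pow_left₀ hY0.le h6 _
    have h8 : 1 ≤ (Y : ℝ) * (Real.log Y) ^ (ε - 1) * Real.exp w := by nlinarith
    have h9 : 0 ≤ max C (Real.exp 3 ^ Fintype.card K) :=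
      le_max_of_le_right (by positivity)
    calc (cnt z Y V κ Θ : ℝ) ≤ Real.exp 3 ^ Fintype.card K := h5.trans h7
      _ ≤ max C (Real.exp 3 ^ Fintype.card K) * 1 := by rw [mul_one]; exact le_max_right _ _
      _ ≤ max C (Real.exp 3 ^ Fintype.card K) * ((Y : ℝ) * (Real.log Y) ^ (ε - 1) * Real.exp w) :=
        mul_le_mul_of_nonneg_left h8 h9
      _ = _ := by ring
  · -- large `Y`
    set V0 := Nat.findGreatest (fun m => m ^ n ≤ V) V with hV0
    have hp0 : V0 ^ n ≤ V := by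
      have : (fun m => m ^ n ≤ V) V0 :=
        Nat.findGreatest_spec (P := fun m => m ^ n ≤ V) (Nat.zero_le V)
          (by show 0 ^ n ≤ V; rw [zero_pow (by omega)]; exact Nat.zero_le _)
      exact this
    have hp1 : V < (V0 + 1) ^ n := by
      by_contra hcon
      push Not at hcon
      have h5 : V0 + 1 ≤ V := (Nat.le_self_pow (by omega) _).trans hcon
      have h6 := Nat.le_findGreatest (P := fun m => m ^ n ≤ V) h5 hcon
      omega
    have hVV : (Real.log Y) ^ (B0 + 1) < (V0 : ℝ) + 1 := by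
      have h5 : ((Real.log Y) ^ (B0 + 1)) ^ n < ((V0 : ℝ) + 1) ^ n := by
        rw [← pow_mul, mul_comm (B0 + 1) n]
        exact lt_of_le_of_lt hV1 (by exact_mod_cast hp1)
      exact lt_of_pow_lt_pow_left₀ n (by positivity) h5
    have hpB : 1 ≤ (Real.log Y) ^ B0 := one_le_pow₀ hlog.le
    rw [pow_succ] at hVV
    have hV0a : (Real.log Y) ^ B0 ≤ V0 := by nlinarith
    have hV0b : 2 ≤ V0 := by
      have : (1 : ℝ) < V0 := by nlinarith
      have : 1 < V0 := by exact_mod_cast this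
      omega
    have hV0c : V0 ≤ V := (Nat.le_self_pow (by omega) _).trans hp0
    have hV0d : (V0 : ℝ) ≤ (Real.log Y) ^ B' := le_trans (by exact_mod_cast hV0c) hV2
    have hVne : V ≠ 0 := by omega
    have h5 := hC z Y V V0 (κK κ) (bb Θ) (Real.exp w) hz hY hV0b hV0a hV0d (Or.inr hp0)
      (bb_le Θ hΘ) hM (by
        intro A hA hA2
        refine Real.exp_le_exp.2 (h3 K z Y Θ w hw hΘ hs A hA ?_)
        exact hA2.resolve_left hVne)
    rw [h2 K z Y V κ Θ hz hκ hΘ]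
    refine (le_abs_self _).trans (h5.trans ?_)
    have h6 : 0 ≤ (Y : ℝ) * (Real.log Y) ^ (ε - 1) * Real.exp w := by
      have : 0 ≤ (Y : ℝ) * (Real.log Y) ^ (ε - 1) := by linarith
      positivity
    calc C * Y * (Real.log Y) ^ (ε - 1) * Real.exp w =
        C * ((Y : ℝ) * (Real.log Y) ^ (ε - 1) * Real.exp w) := by ring
      _ ≤ max C (Real.exp 3 ^ Fintype.card K) *
          ((Y : ℝ) * (Real.log Y) ^ (ε - 1) * Real.exp w) :=
        mul_le_mul_of_nonneg_right (le_max_left _ _) h6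
      _ = _ := by ring


end Pool.Agent.W249.TW
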